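import Pool.Agent.H27.TMB.All
import Pool.Agent.H31.SWX.All
import Pool.Agent.H29.DM.RLW
import Pool.Agent.H23.DM.TargetsI
import Pool.Agent.H23.DM.TargetsG
import Pool.Agent.H23.DM.TargetsA
import Pool.Agent.H1.DMX.BI
import Pool.Agent.H1.DMX.RT
import Pool.Agent.H16.DM.SC
import Pool.Agent.H16.DM.TR
import Pool.Agent.H18.DM.BQ
import Pool.Agent.H19.DM.BE
import Pool.Agent.H19.DM.BL
import Pool.Agent.H19.DM.OC
import Pool.Agent.H19.DM.PI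
import Pool.Agent.H3.DM.SP
import Pool.Agent.H33.DM.CL
import Pool.Agent.H34.DM.KC
import Pool.Agent.H39.DM.ZT
import Pool.Agent.H40.DM.PS
import Pool.Agent.H42.DM.KE
import Pool.Agent.H46.DM.FI
import Pool.Agent.H49.DM.PA
import Pool.Agent.H54.DM.LN
import Pool.Agent.H54.DM.LT
import Pool.Agent.H55.DM.BP
import Pool.Agent.H56.DM.DV
import Pool.Agent.H59.DM.DC
import Pool.Agent.H6.DM.CC
import Pool.Agent.H6.DM.P2
import Pool.Agent.H64.DM.P1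
import Pool.Agent.H65.DM.MQ
import Pool.Agent.H65.DM.RP
import Pool.Agent.H70.DM.DY
import Pool.Agent.H81.DM.TM
import Pool.Agent.H86.DM.TC
import Pool.Agent.H91.DM.EF
import Pool.Agent.H92.DM.EX
import Pool.Agent.H92.DM.NC
import Pool.Agent.H95.DM.CH
import Pool.Agent.H95.DM.KP
import Pool.Agent.H97.DM.KF
import Pool.Agent.H97.DM.SM

/-!
# The twelfth moment of Hecke L-functions in the whole conductor: assembly
-/

set_option autoImplicit false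

open NumberField NumberField.InfinitePlace Complex

namespace Pool.Agent.H27.DM.All

open Pool.Agent.H23.DM
open Pool.Agent.H27.TMB.All Pool.Agent.H31.SWX.All
open Pool.Agent.H31.SWL.All Pool.Agent.H29.DW.Base
open Pool.Agent.H29.DW.All (d_PG d_AE d_GH d_SG)
open Pool.Agent.H29.THC.Base (c_TH c_YC c_DU c_RX c_PU c_RR c_SY c_NS c_FP c_ID c_ME c_UI c_CT)
open Pool.Agent.H29.THC.All (a_HR a_GX a_EX a_CQ a_CS a_TR)

theorem p_BE : D_BE := Pool.Agent.H19.DM.BE.pf_BE 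
theorem p_MQ : D_MQ := Pool.Agent.H65.DM.MQ.pf_MQ w_CU p_BE
theorem p_DY : D_DY := Pool.Agent.H70.DM.DY.pf_DY w_CU w_NB
theorem p_LN : D_LN := Pool.Agent.H54.DM.LN.pf_LN c_DU
theorem p_DV : D_DV := Pool.Agent.H56.DM.DV.pf_DV m_DV m_DL p_LN
theorem p_PA : D_PA := Pool.Agent.H49.DM.PA.pf_PA x_PO c_RX m_LA m_LS m_E1 w_WS p_LN p_DV
theorem p_P1 : D_P1 := Pool.Agent.H64.DM.P1.pf_P1 p_PA p_LN
theorem p_ZT : D_ZT := Pool.Agent.H39.DM.ZT.pf_ZT m_NZ w_WS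
theorem p_PS : D_PS := Pool.Agent.H40.DM.PS.pf_PS x_PO m_CF m_CB m_E1 m_WZ p_LN c_RX
theorem p_CH : D_CH := Pool.Agent.H95.DM.CH.pf_CH 
theorem p_SM : D_SM := Pool.Agent.H97.DM.SM.pf_SM m_SM p_CH
theorem p_P2 : D_P2 := Pool.Agent.H6.DM.P2.pf_P2 m_DU m_ET p_ZT p_PS p_DV p_SM p_CH p_LN
theorem p_OC : D_OC := Pool.Agent.H19.DM.OC.pf_OC p_P1 p_P2
theorem p_RP : D_RP := Pool.Agent.H65.DM.RP.pf_RP m_RP
theorem p_PI : D_PI := Pool.Agent.H19.DM.PI.pf_PI a_GX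
theorem p_SC : D_SC := Pool.Agent.H16.DM.SC.pf_SC 
theorem p_TR : D_TR := Pool.Agent.H16.DM.TR.pf_TR 
theorem p_EF : D_EF := Pool.Agent.H91.DM.EF.pf_EF Pool.Agent.H29.DM.pf_RL a_GX
theorem p_CC : D_CC := Pool.Agent.H6.DM.CC.pf_CC Pool.Agent.H29.DM.pf_RC Pool.Agent.H29.DM.pf_RW p_EF x_RA x_CF
theorem p_DC : D_DC := Pool.Agent.H59.DM.DC.pf_DC p_PI p_SC p_TR p_CC x_GX c_RX
theorem p_BL : D_BL := Pool.Agent.H19.DM.BL.pf_BL m_RK m_MJ m_DL p_MQ p_DY p_OC p_RP p_DC p_EF Pool.Agent.H29.THC.pf_DV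
theorem p_CL : D_CL := Pool.Agent.H33.DM.CL.pf_CL m_CL
theorem p_NC : D_NC := Pool.Agent.H92.DM.NC.pf_NC 
theorem p_TC : D_TC := Pool.Agent.H86.DM.TC.pf_TC m_TC p_NC
theorem p_KC : D_KC := Pool.Agent.H34.DM.KC.pf_KC p_BL p_CL p_TC p_CH
theorem p_KE : D_KE := Pool.Agent.H42.DM.KE.pf_KE p_KC p_TC x_ME x_CD
theorem p_KP : D_KP := Pool.Agent.H95.DM.KP.pf_KP 
theorem p_KF : D_KF := Pool.Agent.H97.DM.KF.pf_KF p_KE p_KP p_EF
theorem p_RT : D_RT := Pool.Agent.H1.DMX.RT.pf_RT p_KF c_RX w_CU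
theorem p_BI : D_BI := Pool.Agent.H1.DMX.BI.pf_BI p_RT m_JN w_IN w_MS c_RR c_YC c_FD
theorem p_BP : D_BP := Pool.Agent.H55.DM.BP.pf_BP w_UP w_WL p_BI u_CG c_SY a_GX
theorem p_BQ : D_BQ := Pool.Agent.H18.DM.BQ.pf_BQ w_UQ w_WL p_BI c_RR u_DC x_SH a_GX
theorem p_EX : D_EX := Pool.Agent.H92.DM.EX.pf_EX u_AG
theorem p_SP : D_SP := Pool.Agent.H3.DM.SP.pf_SP p_EX m_CT
theorem p_LT : D_LT := Pool.Agent.H54.DM.LT.pf_LT p_BP p_BQ p_SP x_SG d_AE d_GH a_HR Pool.Agent.H63.HK.ds u_DC u_GE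
theorem p_TM : D_TM := Pool.Agent.H81.DM.TM.pf_TM p_LT
theorem p_FI : D_FI := Pool.Agent.H46.DM.FI.pf_FI p_TM u_FK Pool.Agent.H23.GLB.g_FG c_SY

end Pool.Agent.H27.DM.All
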