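import Pool.Agent.H27.DM.All
import Pool.Agent.H23.DM.TargetsQ
import Pool.Agent.H65.SM.JN
import Pool.Agent.H48.SM.CN
import Pool.Agent.H1.DMQ.QI
import Pool.Agent.H1.DMQ.QR
import Pool.Agent.H18.DMQ.QBQ
import Pool.Agent.H19.DMQ.Q1
import Pool.Agent.H19.DMQ.QO
import Pool.Agent.H40.DMQ.QL
import Pool.Agent.H54.DMQ.QFI
import Pool.Agent.H55.DM.Q2
import Pool.Agent.H55.DM.QBP
import Pool.Agent.H55.DM.QP
import Pool.Agent.H64.DMQ.QN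
import Pool.Agent.H81.DMQ.QT
import Pool.Agent.H86.DMQ.QH
import Pool.Agent.H97.DMQ.QF

/-!
# Mean values of Hecke L-functions over boxes and cosets: assembly
-/

set_option autoImplicit false

open NumberField NumberField.InfinitePlace Complex

namespace Pool.Agent.H27.DM.All

open Pool.Agent.H23.DM
open Pool.Agent.H27.TMB.All Pool.Agent.H31.SWX.All
open Pool.Agent.H31.SWL.All Pool.Agent.H29.DW.Base
open Pool.Agent.H29.DW.All (d_PG d_AE d_GH d_SG)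
open Pool.Agent.H29.THC.Base (c_TH c_YC c_DU c_RX c_PU c_RR c_SY c_NS c_FP c_ID c_ME c_UI c_CT)
open Pool.Agent.H29.THC.All (a_HR a_GX a_EX a_CQ a_CS a_TR)

theorem p_QP : D_QP := Pool.Agent.H55.DM.QP.pf_QP m_DU m_ET p_ZT p_PS p_DV p_SM p_CH p_LN
theorem p_QO : D_QO := Pool.Agent.H19.DMQ.QO.pf_QO p_P1 p_QP
theorem p_Q1 : D_Q1 := Pool.Agent.H19.DMQ.Q1.pf_Q1 m_RK m_MJ m_DL p_MQ p_DY p_QO p_RP p_CL p_DC p_EF p_CH Pool.Agent.H29.THC.pf_DV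
theorem p_Q2 : D_Q2 := Pool.Agent.H55.DM.Q2.pf_Q2 p_Q1 (Pool.Agent.H48.SM.CN.pf_CN m_CL)
theorem p_QF : D_QF := Pool.Agent.H97.DMQ.QF.pf_QF p_Q2 p_EF
theorem p_QR : D_QR := Pool.Agent.H1.DMQ.QR.pf_QR p_QF c_RX w_CU
theorem p_QI : D_QI := Pool.Agent.H1.DMQ.QI.pf_QI p_QR Pool.Agent.H65.SM.JN.pf_JN w_IN w_MS c_RR c_YC c_FD
theorem p_QBP : D_QBP := Pool.Agent.H55.DM.QBP.pf_QBP w_UP w_WL p_QI u_CG c_SY a_GX
theorem p_QBQ : D_QBQ := Pool.Agent.H18.DMQ.QBQ.pf_QBQ w_UQ w_WL p_QI c_RR u_DC x_SH a_GX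
theorem p_QN : D_QN := Pool.Agent.H64.DMQ.QN.pf_QN 
theorem p_QL : D_QL := Pool.Agent.H40.DMQ.QL.pf_QL p_QBP p_QBQ p_QN p_SP x_SG d_AE d_GH a_HR Pool.Agent.H63.HK.ds u_DC u_GE
theorem p_QT : D_QT := Pool.Agent.H81.DMQ.QT.pf_QT p_QL
theorem p_QH : D_QH := Pool.Agent.H86.DMQ.QH.pf_QH p_QT p_TM
theorem p_QFI : D_QFI := Pool.Agent.H54.DMQ.QFI.pf_QFI p_QH u_FK c_SY

end Pool.Agent.H27.DM.All
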