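import Pool.Agent.H29.DW.Stmt
import Pool.Agent.H31.SX.Defs

/-!
# Families of Hecke characters in boxes and cosets
-/

set_option autoImplicit false

open NumberField NumberField.InfinitePlace Complex

namespace Pool.Agent.H27.DM

open Pool.Agent.H23.LC Pool.Agent.H29.DW
open Pool.Agent.H23.LB (ph)

section NF

variable {K : Type} [Field K] [NumberField K]

/-- `S` is a family of pairs of a Hecke character modulo `l k`, primitive at the primes of `k`, and a
real number, with local conductors at most `T v` at infinity and separated real numbers for equal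
characters. It is divided into the `R` classes `bl = 0, ..., R - 1`: the parameters at infinity of
two pairs in the same class have the distance at most `H v`, and the components at `k` of the
characters agree on `1 + κ` (their quotient has at `a ≡ 1 mod l κ` the value given by the
parameters at infinity). -/
structure Fam (l k κ : Ideal (𝓞 K)) (T H : InfinitePlace K → ℝ) (R : ℕ)
    (S : Finset (HG K (l * k) × ℝ)) (bl : HG K (l * k) × ℝ → ℕ) : Prop where
  radii : ∀ v, 1 ≤ H v ∧ H v ^ 3 ≤ T v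
  prim : ∀ q ∈ S, PrG k q.1
  sep : ∀ q ∈ S, ∀ q' ∈ S, q.1 = q'.1 → q.2 ≠ q'.2 → 1 ≤ |q.2 - q'.2|
  size : ∀ q ∈ S, ∀ v : InfinitePlace K, 1 + |q.2 - q.1.ν v| + |(q.1.k v : ℝ)| ≤ T v
  cls : ∀ q ∈ S, bl q < R
  near : ∀ q ∈ S, ∀ q' ∈ S, bl q = bl q' → ∀ v : InfinitePlace K,
    |(q.2 - q.1.ν v) - (q'.2 - q'.1.ν v)| + |(q.1.k v : ℝ) - q'.1.k v| ≤ H v
  loc : ∀ q ∈ S, ∀ q' ∈ S, bl q = bl q' → ∀ a : 𝓞 K, a ≠ 0 → a - 1 ∈ l * κ →
    q.1.ψ (Ideal.span {a}) * (ag q'.1.k (a : K) * ph q'.1.ν (a : K)) =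
      q'.1.ψ (Ideal.span {a}) * (ag q.1.k (a : K) * ph q.1.ν (a : K))

/-- `N(k) ∏_v T_v ^ (e_v)` -/
noncomputable def vol (k : Ideal (𝓞 K)) (T : InfinitePlace K → ℝ) : ℝ :=
  Ideal.absNorm k * ∏ v, T v ^ v.mult

end NF

end Pool.Agent.H27.DM
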